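import Pool.Agent.Lib.MP_75b31c_lc.H40.Defs

set_option autoImplicit false

/-!
# Module FREE: the `ℓ²` inequality for a free family acting on finite subsets (helper74)
-/

namespace Pool.Agent.Lib.MP_75b31c_lc.H74

open Finset

/-- Left translation of finite subsets. -/
noncomputable def tr {Γ : Type} [Group Γ] (g : Γ) (B : Finset Γ) : Finset Γ := by
  classical exact B.image fun x => g * x

theorem tr_one {Γ : Type} [Group Γ] (B : Finset Γ) : tr 1 B = B := by
  classical
  ext x
  simp [tr]

theorem tr_tr {Γ : Type} [Group Γ] (g k : Γ) (B : Finset Γ) : tr g (tr k B) = tr (g * k) B := by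
  classical
  unfold tr
  rw [image_image]
  refine image_congr fun x _ => ?_
  simp [mul_assoc]

theorem tr_injective {Γ : Type} [Group Γ] (g : Γ) : Function.Injective (tr g) := by
  intro B C h
  have := congrArg (tr g⁻¹) h
  simpa [tr_tr, tr_one] using this

theorem mem_tr {Γ : Type} [Group Γ] {g : Γ} {B : Finset Γ} {x : Γ} (hx : x ∈ B) :
    g * x ∈ tr g B := by
  classical
  exact mem_image_of_mem _ hx

/-- The free action: an element of a torsion free group fixing a non-empty finite set by
translation is trivial. -/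
theorem tr_free {Γ : Type} [Group Γ] {H : Type} [Group H] [IsMulTorsionFree H] (ρ : H →* Γ)
    (hρ : Function.Injective ρ) (g : H) (B : Finset Γ) (hB : B.Nonempty) (h : tr (ρ g) B = B) :
    g = 1 := by
  obtain ⟨b, hb⟩ := hB
  have hpow : ∀ n : ℕ, ρ g ^ n * b ∈ B := by
    intro n
    induction n with
    | zero => simpa using hb
    | succ n ih =>
      have := mem_tr (g := ρ g) ih
      rw [h, ← mul_assoc, ← pow_succ'] at this
      exact this
  obtain ⟨n, m, hnm, he⟩ : ∃ n m : ℕ, n < m ∧ ρ g ^ n * b = ρ g ^ m * b := by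
    by_contra hcon
    push Not at hcon
    have hi : Function.Injective fun n : ℕ => (⟨ρ g ^ n * b, hpow n⟩ : B) := by
      intro n m hnm
      rcases lt_trichotomy n m with h1 | h1 | h1
      · exact absurd (congrArg Subtype.val hnm) (hcon n m h1)
      · exact h1
      · exact absurd (congrArg Subtype.val hnm).symm (hcon m n h1)
    exact not_injective_infinite_finite _ hi
  have h1 : ρ g ^ n = ρ g ^ m := mul_right_cancel he
  have h2 : g ^ n = g ^ m := hρ (by simpa using h1)
  have h3 : g ^ (m - n) = 1 := by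
    have h4 : g ^ m = g ^ n * g ^ (m - n) := by rw [← pow_add]; congr 1; omega
    rw [h4] at h2
    exact (mul_eq_left.1 h2.symm)
  have h5 : m - n ≠ 0 := by omega
  exact (pow_eq_one_iff_left h5).1 h3

/-- the equivariant map to the free group -/
theorem exists_kappa {Γ : Type} [Group Γ] {H : Type} [Group H] [IsMulTorsionFree H] (ρ : H →* Γ)
    (hρ : Function.Injective ρ) :
    ∃ κ : Finset Γ → H, ∀ (g : H) (B : Finset Γ), B.Nonempty → κ (tr (ρ g) B) = g * κ B := by
  classical
  let s : Setoid (Finset Γ) :=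
    { r := fun A B => ∃ g : H, tr (ρ g) A = B
      iseqv := by
        refine ⟨fun A => ⟨1, by simp [tr_one]⟩, ?_, ?_⟩
        · rintro A B ⟨g, rfl⟩
          exact ⟨g⁻¹, by simp [tr_tr, tr_one]⟩
        · rintro A B C ⟨g, rfl⟩ ⟨k, rfl⟩
          exact ⟨k * g, by simp [tr_tr]⟩ }
  have hrep : ∀ B : Finset Γ, ∃ g : H, tr (ρ g) (Quotient.mk s B).out = B := fun B =>
    Quotient.exact (Quotient.out_eq (Quotient.mk s B))
  choose κ hκ using hrep
  refine ⟨κ, fun g B hB => ?_⟩
  have hq : (Quotient.mk s (tr (ρ g) B)) = Quotient.mk s B :=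
    Quotient.sound (s := s) (show ∃ k : H, tr (ρ k) (tr (ρ g) B) = B from
      ⟨g⁻¹, by simp [tr_tr, tr_one]⟩)
  set R := (Quotient.mk s B).out with hR
  have h1 : tr (ρ (κ B)) R = B := hκ B
  have h2 : tr (ρ (κ (tr (ρ g) B))) R = tr (ρ g) B := by
    have := hκ (tr (ρ g) B)
    rwa [hq] at this
  have hRne : R.Nonempty := by
    rw [nonempty_iff_ne_empty]
    intro h0
    rw [h0] at h1
    rw [← h1] at hB
    simp [tr] at hB
  have h3 : tr (ρ ((g * κ B)⁻¹ * κ (tr (ρ g) B))) R = R := by
    have h4 : tr (ρ (g * κ B)) R = tr (ρ g) B := by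
      rw [map_mul, ← tr_tr, h1]
    have h5 : tr (ρ (g * κ B)⁻¹) (tr (ρ (κ (tr (ρ g) B))) R) = R := by
      rw [h2, ← h4, tr_tr, ← map_mul, inv_mul_cancel, map_one, tr_one]
    rwa [tr_tr, ← map_mul] at h5
  have h6 := tr_free ρ hρ _ R hRne h3
  rw [inv_mul_eq_one] at h6
  exact h6.symm

/-- `g` is a reduced word with first letter `x`. -/
def StartsWith (x : ℕ × Bool) (g : FreeGroup ℕ) : Prop := g.toWord.head? = some x

theorem startsWith_unique {x y : ℕ × Bool} {g : FreeGroup ℕ} (hx : StartsWith x g)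
    (hy : StartsWith y g) : x = y := by
  unfold StartsWith at hx hy
  rw [hx] at hy
  exact Option.some_injective _ hy

theorem startsWith_of_mul {j : ℕ} {g : FreeGroup ℕ} (h : ¬ StartsWith (j, false) g) :
    StartsWith (j, true) (FreeGroup.of j * g) := by
  unfold StartsWith at *
  rw [FreeGroup.toWord_mul, FreeGroup.toWord_of, List.singleton_append, FreeGroup.reduce.cons,
    FreeGroup.reduce_toWord]
  cases hw : g.toWord with
  | nil => simp
  | cons a l =>
    rw [hw] at h
    simp only [List.head?_cons, Option.some.injEq] at h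
    have : ¬ (j = a.1 ∧ true = !a.2) := by
      rintro ⟨h1, h2⟩
      apply h
      ext
      · exact h1.symm
      · cases ha : a.2
        · rfl
        · rw [ha] at h2
          simp at h2
    simp only [if_neg this, List.head?_cons]

/-- sums of squares over an injectively parametrised family -/
theorem sum_comp_le {S P : Type} (c : S →₀ ℝ) (Q : Finset P) (φ : P → S)
    (hφ : ∀ p ∈ Q, ∀ q ∈ Q, c (φ p) ≠ 0 → φ p = φ q → p = q) :
    ∑ p ∈ Q, c (φ p) ^ 2 ≤ ∑ A ∈ c.support, c A ^ 2 := by
  classical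
  have h1 : ∑ p ∈ Q, c (φ p) ^ 2 = ∑ p ∈ Q.filter (fun p => c (φ p) ≠ 0), c (φ p) ^ 2 := by
    rw [sum_filter]
    refine sum_congr rfl fun p _ => ?_
    by_cases h : c (φ p) = 0
    · simp [h]
    · simp [h]
  have h2 : ∑ A ∈ (Q.filter (fun p => c (φ p) ≠ 0)).image φ, c A ^ 2 =
      ∑ p ∈ Q.filter (fun p => c (φ p) ≠ 0), c (φ p) ^ 2 := by
    refine sum_image fun p hp q hq hpq => ?_
    have hp' := mem_filter.1 (mem_coe.1 hp)
    have hq' := mem_filter.1 (mem_coe.1 hq)
    exact hφ p hp'.1 q hq'.1 hp'.2 hpq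
  rw [h1, ← h2]
  refine sum_le_sum_of_subset_of_nonneg ?_ fun _ _ _ => sq_nonneg _
  intro A hA
  obtain ⟨p, hp, rfl⟩ := mem_image.1 hA
  exact Finsupp.mem_support_iff.2 (mem_filter.1 hp).2

/-- The abstract inequality. -/
theorem core {S : Type} (c : S →₀ ℝ) (a : ℕ → S → S) (ha : ∀ j, Function.Injective (a j))
    (Wm Wp : ℕ → S → Prop) (hm : ∀ i j B, Wm i B → Wm j B → i = j)
    (hp : ∀ i j A, Wp i A → Wp j A → i = j)
    (hmp : ∀ j B, c (a j B) ≠ 0 → ¬ Wm j B → Wp j (a j B)) (N : ℕ) (T : Finset S) :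
    ∑ B ∈ T, (∑ j ∈ range N, c (a j B)) ^ 2 ≤ 4 * N * ∑ A ∈ c.support, c A ^ 2 := by
  classical
  set M := ∑ A ∈ c.support, c A ^ 2 with hM
  set s : S → ℝ := fun B => ∑ j ∈ range N, if Wm j B then c (a j B) else 0 with hs
  set t : S → ℝ := fun B => ∑ j ∈ range N, if Wm j B then 0 else c (a j B) with ht
  have hst : ∀ B, ∑ j ∈ range N, c (a j B) = s B + t B := by
    intro B
    rw [hs, ht]
    simp only
    rw [← sum_add_distrib]
    refine sum_congr rfl fun j _ => ?_
    by_cases h : Wm j B <;> simp [h]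
  have hs2 : ∑ B ∈ T, s B ^ 2 ≤ N * M := by
    have h1 : ∀ B, s B ^ 2 ≤ ∑ j ∈ range N, c (a j B) ^ 2 := by
      intro B
      by_cases hex : ∃ j ∈ range N, Wm j B
      · obtain ⟨j, hj, hjB⟩ := hex
        have : s B = c (a j B) := by
          rw [hs]
          simp only
          rw [sum_eq_single j]
          · simp [hjB]
          · intro i _ hij
            have : ¬ Wm i B := fun h => hij (hm i j B h hjB)
            simp [this]
          · intro h
            exact absurd hj h
        rw [this]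
        exact single_le_sum (f := fun j => c (a j B) ^ 2) (fun _ _ => sq_nonneg _) hj
      · push Not at hex
        have : s B = 0 := sum_eq_zero fun j hj => by simp [hex j hj]
        rw [this]
        simp only [ne_eq, OfNat.ofNat_ne_zero, not_false_eq_true, zero_pow]
        exact sum_nonneg fun _ _ => sq_nonneg _
    calc ∑ B ∈ T, s B ^ 2 ≤ ∑ B ∈ T, ∑ j ∈ range N, c (a j B) ^ 2 := sum_le_sum fun B _ => h1 B
      _ = ∑ j ∈ range N, ∑ B ∈ T, c (a j B) ^ 2 := sum_comm
      _ ≤ ∑ j ∈ range N, M := sum_le_sum fun j _ =>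
          sum_comp_le c T (a j) fun p _ q _ _ hpq => ha j hpq
      _ = N * M := by simp
  have ht2 : ∑ B ∈ T, t B ^ 2 ≤ N * M := by
    have h1 : ∀ B, t B ^ 2 ≤ N * ∑ j ∈ range N, (if Wm j B then 0 else c (a j B)) ^ 2 := by
      intro B
      have := sq_sum_le_card_mul_sum_sq (s := range N)
        (f := fun j => if Wm j B then (0 : ℝ) else c (a j B))
      simpa using this
    calc ∑ B ∈ T, t B ^ 2
        ≤ ∑ B ∈ T, N * ∑ j ∈ range N, (if Wm j B then 0 else c (a j B)) ^ 2 :=
          sum_le_sum fun B _ => h1 B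
      _ = N * ∑ p ∈ (T ×ˢ range N).filter (fun p => ¬ Wm p.2 p.1), c (a p.2 p.1) ^ 2 := by
          rw [← mul_sum]
          congr 1
          rw [sum_filter, sum_product]
          refine sum_congr rfl fun B _ => sum_congr rfl fun j _ => ?_
          by_cases h : Wm j B <;> simp [h]
      _ ≤ N * M := by
          refine mul_le_mul_of_nonneg_left ?_ (Nat.cast_nonneg N)
          refine sum_comp_le c _ (fun p : S × ℕ => a p.2 p.1) ?_
          rintro ⟨B, j⟩ hBj ⟨C, k⟩ hCk hne heq
          simp only at hne heq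
          have h1 := (mem_filter.1 hBj).2
          have h2 := (mem_filter.1 hCk).2
          have h3 : Wp j (a j B) := hmp j B hne h1
          have h4 : Wp k (a k C) := hmp k C (by rw [← heq]; exact hne) h2
          rw [← heq] at h4
          have h5 : j = k := hp j k _ h3 h4
          subst h5
          rw [ha j heq]
  calc ∑ B ∈ T, (∑ j ∈ range N, c (a j B)) ^ 2
      ≤ ∑ B ∈ T, (2 * s B ^ 2 + 2 * t B ^ 2) := by
        refine sum_le_sum fun B _ => ?_
        rw [hst B]
        nlinarith [sq_nonneg (s B - t B)]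
    _ = 2 * ∑ B ∈ T, s B ^ 2 + 2 * ∑ B ∈ T, t B ^ 2 := by
        rw [sum_add_distrib, mul_sum, mul_sum]
    _ ≤ 4 * N * M := by linarith

theorem free_family (Γ : Type) [Group Γ] (γ : ℕ → Γ)
    (hγ : Function.Injective (FreeGroup.lift γ : FreeGroup ℕ →* Γ)) (N : ℕ)
    (c : Finset Γ →₀ ℝ) (h0 : c ∅ = 0) :
    ∀ T : Finset (Finset Γ), ∑ B ∈ T, (∑ j ∈ Finset.range N,
      c (by classical exact B.image fun g => γ j * g)) ^ 2 ≤ 4 * N * ∑ A ∈ c.support, c A ^ 2 := by
  classical
  intro T
  obtain ⟨κ, hκ⟩ := exists_kappa (FreeGroup.lift γ : FreeGroup ℕ →* Γ) hγ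
  have hmain := core c (fun j B => tr (γ j) B) (fun j => tr_injective (γ j))
    (fun j B => StartsWith (j, false) (κ B)) (fun j A => StartsWith (j, true) (κ A))
    (fun i j B hi hj => congrArg Prod.fst (startsWith_unique hi hj))
    (fun i j B hi hj => congrArg Prod.fst (startsWith_unique hi hj))
    (by
      intro j B hne hm
      have hB : B.Nonempty := by
        rw [nonempty_iff_ne_empty]
        rintro rfl
        apply hne
        have : tr (γ j) (∅ : Finset Γ) = ∅ := by simp [tr]
        rw [this, h0]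
      have h1 := hκ (FreeGroup.of j) B hB
      rw [FreeGroup.lift_apply_of] at h1
      rw [h1]
      exact startsWith_of_mul hm) N T
  have e : ∀ (j : ℕ) (B : Finset Γ), tr (γ j) B = B.image fun g => γ j * g := by
    intro j B
    ext x
    simp [tr]
  simp only [e] at hmain
  convert hmain using 3

end Pool.Agent.Lib.MP_75b31c_lc.H74
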