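import Pool.Agent.Lib.MP_75b31c_lc.H40.Defs
import Pool.Agent.Lib.MP_75b31c_lc.H74.Free

set_option autoImplicit false

/-!
# Module VAR: the shift preserves the coin tossing measure, and the variance bound (helper74)
-/

namespace Pool.Agent.Lib.MP_75b31c_lc.H74

open MeasureTheory Finset Pool.Agent.Lib.MP_75b31c_lc.H40

theorem measurable_shift {Γ : Type} [Group Γ] (γ : Γ) : Measurable (shift γ) :=
  measurable_pi_lambda _ fun _ => measurable_pi_apply _

theorem measurePreserving_shift {Γ : Type} [Group Γ] (γ : Γ) :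
    MeasurePreserving (shift γ) (coinPi Γ) (coinPi Γ) := by
  classical
  refine ⟨measurable_shift γ, ?_⟩
  unfold coinPi
  refine Measure.eq_infinitePi (μ := fun _ : Γ => coin) fun s t ht => ?_
  have hms : MeasurableSet (Set.pi (s : Set Γ) t) :=
    MeasurableSet.pi (countable_toSet _) fun i _ => ht i
  rw [Measure.map_apply (measurable_shift γ) hms]
  have e : shift γ ⁻¹' Set.pi (s : Set Γ) t =
      Set.pi ((s.image fun g => γ⁻¹ * g : Finset Γ) : Set Γ) fun g => t (γ * g) := by
    ext x
    simp only [Set.mem_preimage, Set.mem_pi, shift, mem_coe, mem_image]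
    constructor
    · rintro h _ ⟨g, hg, rfl⟩
      rw [mul_inv_cancel_left]
      exact h g hg
    · intro h g hg
      have := h (γ⁻¹ * g) ⟨g, hg, rfl⟩
      rwa [mul_inv_cancel_left] at this
  rw [e, Measure.infinitePi_pi _ fun i _ => ht _, prod_image fun a _ b _ hab => mul_left_cancel hab]
  simp

/-- sign of a bit -/
noncomputable def eps (b : Bool) : ℝ := if b then 1 else -1

theorem eps_mul_self (b : Bool) : eps b * eps b = 1 := by cases b <;> simp [eps]

theorem integral_eps : ∫ b, eps b ∂coin = 0 := by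
  unfold coin
  rw [integral_add_measure, integral_smul_measure, integral_smul_measure, integral_dirac,
    integral_dirac]
  · simp [eps]
  · exact (integrable_dirac (by simp)).smul_measure (by simp)
  · exact (integrable_dirac (by simp)).smul_measure (by simp)

/-- Walsh functions -/
noncomputable def wal {Γ : Type} (A : Finset Γ) (x : Γ → Bool) : ℝ := ∏ g ∈ A, eps (x g)

theorem measurable_wal {Γ : Type} (A : Finset Γ) : Measurable (wal A) := by
  unfold wal
  exact Finset.measurable_prod _ fun g _ =>
    (measurable_of_countable eps).comp (measurable_pi_apply g)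

theorem abs_wal {Γ : Type} (A : Finset Γ) (x : Γ → Bool) : |wal A x| = 1 := by
  unfold wal
  rw [abs_prod]
  refine prod_eq_one fun g _ => ?_
  cases x g <;> simp [eps]

theorem wal_empty {Γ : Type} (x : Γ → Bool) : wal (∅ : Finset Γ) x = 1 := by simp [wal]

theorem integrable_wal {Γ : Type} (A : Finset Γ) : Integrable (wal A) (coinPi Γ) :=
  Integrable.of_bound (measurable_wal A).aestronglyMeasurable 1
    (Filter.Eventually.of_forall fun x => by rw [Real.norm_eq_abs, abs_wal])

theorem integral_wal {Γ : Type} (A : Finset Γ) (hA : A.Nonempty) :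
    ∫ x, wal A x ∂(coinPi Γ) = 0 := by
  have h1 : ∀ x : Γ → Bool, wal A x = (fun y : A → Bool => ∏ i : A, eps (y i)) (A.restrict x) := by
    intro x
    simp only [Finset.restrict]
    rw [wal, ← prod_coe_sort]
  simp_rw [h1]
  unfold coinPi
  rw [integral_restrict_infinitePi (μ := fun _ : Γ => coin)
    (f := fun y : A → Bool => ∏ i : A, eps (y i)) (measurable_of_countable _).aestronglyMeasurable]
  have h2 := integral_fintype_prod_eq_prod (ι := A) (𝕜 := ℝ) (E := fun _ => Bool)
    (μ := fun _ => coin) (fun _ => eps)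
  rw [h2]
  obtain ⟨a, ha⟩ := hA
  exact prod_eq_zero (mem_univ (⟨a, ha⟩ : A)) integral_eps

theorem wal_mul {Γ : Type} [DecidableEq Γ] (A B : Finset Γ) (x : Γ → Bool) :
    wal A x * wal B x = wal (symmDiff A B) x := by
  have hA : wal A x = wal (A \ B) x * wal (A ∩ B) x := by
    unfold wal
    rw [← prod_union (disjoint_sdiff_inter A B), sdiff_union_inter]
  have hB : wal B x = wal (B \ A) x * wal (A ∩ B) x := by
    unfold wal
    rw [inter_comm, ← prod_union (disjoint_sdiff_inter B A), sdiff_union_inter]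
  have hS : wal (symmDiff A B) x = wal (A \ B) x * wal (B \ A) x := by
    unfold wal
    have e : symmDiff A B = (A \ B) ∪ (B \ A) := rfl
    rw [e, prod_union disjoint_sdiff_sdiff]
  have hI : wal (A ∩ B) x * wal (A ∩ B) x = 1 := by
    unfold wal
    rw [← prod_mul_distrib]
    exact prod_eq_one fun g _ => eps_mul_self _
  rw [hA, hB, hS]
  calc wal (A \ B) x * wal (A ∩ B) x * (wal (B \ A) x * wal (A ∩ B) x)
      = wal (A \ B) x * wal (B \ A) x * (wal (A ∩ B) x * wal (A ∩ B) x) := by ring
    _ = _ := by rw [hI, mul_one]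

theorem integral_wal_mul {Γ : Type} [DecidableEq Γ] (A B : Finset Γ) :
    ∫ x, wal A x * wal B x ∂(coinPi Γ) = if A = B then 1 else 0 := by
  simp_rw [wal_mul]
  by_cases h : A = B
  · subst h
    rw [if_pos rfl, symmDiff_self]
    simp [wal_empty]
  · rw [if_neg h]
    refine integral_wal _ ?_
    rw [nonempty_iff_ne_empty]
    intro h0
    exact h (symmDiff_eq_bot.1 h0)

theorem wal_shift {Γ : Type} [Group Γ] (γ : Γ) (A : Finset Γ) (x : Γ → Bool) :
    wal A (shift γ x) = wal (tr γ⁻¹ A) x := by
  classical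
  unfold wal tr
  rw [prod_image fun a _ b _ hab => mul_left_cancel hab]
  rfl

/-- Parseval -/
theorem parseval {Γ : Type} (T : Finset (Finset Γ)) (d : Finset Γ → ℝ) :
    ∫ x, (∑ B ∈ T, d B * wal B x) ^ 2 ∂(coinPi Γ) = ∑ B ∈ T, d B ^ 2 := by
  classical
  have h1 : ∀ x : Γ → Bool, (∑ B ∈ T, d B * wal B x) ^ 2 =
      ∑ B ∈ T, ∑ C ∈ T, d B * d C * (wal B x * wal C x) := by
    intro x
    rw [sq, sum_mul_sum]
    exact sum_congr rfl fun B _ => sum_congr rfl fun C _ => by ring
  simp_rw [h1]
  have hint : ∀ B C : Finset Γ,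
      Integrable (fun x => d B * d C * (wal B x * wal C x)) (coinPi Γ) := by
    intro B C
    simp_rw [wal_mul]
    exact (integrable_wal _).const_mul _
  rw [integral_finsetSum _ fun B _ => integrable_finsetSum _ fun C _ => hint B C]
  refine sum_congr rfl fun B hB => ?_
  rw [integral_finsetSum _ fun C _ => hint B C]
  simp_rw [integral_const_mul, integral_wal_mul]
  rw [sum_eq_single B]
  · simp [sq]
  · intro C _ hCB
    simp [hCB.symm]
  · intro h
    exact absurd hB h

/-- the space of Walsh polynomials -/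
noncomputable def V (Γ : Type) : Submodule ℝ ((Γ → Bool) → ℝ) :=
  Submodule.span ℝ (Set.range (wal (Γ := Γ)))

theorem wal_mem {Γ : Type} (A : Finset Γ) : wal A ∈ V Γ := Submodule.subset_span ⟨A, rfl⟩

theorem const_mem {Γ : Type} (a : ℝ) : (fun _ => a) ∈ V Γ := by
  have := (V Γ).smul_mem a (wal_mem (Γ := Γ) ∅)
  convert this using 1
  ext x
  simp [wal_empty]

theorem mul_mem_V {Γ : Type} {f g : (Γ → Bool) → ℝ} (hf : f ∈ V Γ) (hg : g ∈ V Γ) :
    f * g ∈ V Γ := by
  classical
  have h := Submodule.mul_mem_mul hf hg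
  rw [V, Submodule.span_mul_span] at h
  refine Submodule.span_mono ?_ h
  rintro _ ⟨_, ⟨A, rfl⟩, _, ⟨B, rfl⟩, rfl⟩
  exact ⟨symmDiff A B, by ext x; simp [wal_mul]⟩

/-- the sets whose indicator is a Walsh polynomial -/
def good (Γ : Type) : Set (Set (Γ → Bool)) := {C | C.indicator (fun _ => (1 : ℝ)) ∈ V Γ}

theorem good_compl {Γ : Type} {C : Set (Γ → Bool)} (hC : C ∈ good Γ) : Cᶜ ∈ good Γ := by
  have h := (V Γ).sub_mem (const_mem (Γ := Γ) 1) hC
  change Set.indicator _ _ ∈ V Γ
  convert h using 1
  ext x
  by_cases hx : x ∈ C <;> simp [hx]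

theorem good_inter {Γ : Type} {C D : Set (Γ → Bool)} (hC : C ∈ good Γ) (hD : D ∈ good Γ) :
    C ∩ D ∈ good Γ := by
  have h := mul_mem_V hC hD
  change Set.indicator _ _ ∈ V Γ
  convert h using 1
  ext x
  by_cases hx : x ∈ C <;> by_cases hy : x ∈ D <;> simp [hx, hy]

theorem isSetRing_good (Γ : Type) : IsSetRing (good Γ) where
  empty_mem := by
    change Set.indicator _ _ ∈ V Γ
    rw [Set.indicator_empty]
    exact (V Γ).zero_mem
  union_mem := by
    intro C D hC hD
    have := good_compl (good_inter (good_compl hC) (good_compl hD))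
    rwa [← Set.compl_union, compl_compl] at this
  sdiff_mem := by
    intro C D hC hD
    have := good_inter hC (good_compl hD)
    rwa [← Set.sdiff_eq] at this

theorem univ_mem_good (Γ : Type) : (Set.univ : Set (Γ → Bool)) ∈ good Γ := by
  have := good_compl (isSetRing_good Γ).empty_mem
  rwa [Set.compl_empty] at this

theorem measurable_of_mem_V {Γ : Type} {f : (Γ → Bool) → ℝ} (hf : f ∈ V Γ) : Measurable f := by
  rw [V, Finsupp.mem_span_range_iff_exists_finsupp] at hf
  obtain ⟨c, rfl⟩ := hf
  have e : (c.sum fun i a => a • wal i) = fun x : Γ → Bool => ∑ A ∈ c.support, c A * wal A x := by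
    ext x
    rw [Finsupp.sum, Finset.sum_apply]
    rfl
  rw [e]
  exact Finset.measurable_sum (M := ℝ) _ fun A _ => (measurable_wal A).const_mul (c A)

theorem generateFrom_good (Γ : Type) :
    (MeasurableSpace.pi : MeasurableSpace (Γ → Bool)) =
      MeasurableSpace.generateFrom (good Γ) := by
  classical
  apply le_antisymm
  · refine iSup_le fun g => ?_
    rw [← measurable_iff_comap_le]
    refine measurable_to_bool ?_
    refine MeasurableSpace.measurableSet_generateFrom ?_
    change Set.indicator _ _ ∈ V Γ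
    have h := (V Γ).smul_mem (1 / 2) ((V Γ).add_mem (const_mem (Γ := Γ) 1) (wal_mem {g}))
    convert h using 1
    ext x
    simp only [Set.indicator, Set.mem_preimage, Set.mem_singleton_iff, Pi.smul_apply,
      Pi.add_apply, wal, prod_singleton, smul_eq_mul, eps]
    cases x g <;> norm_num
  · refine MeasurableSpace.generateFrom_le fun C hC => ?_
    have hm := measurable_of_mem_V hC
    have e : C = (C.indicator fun _ => (1 : ℝ)) ⁻¹' {1} := by
      ext x
      by_cases hx : x ∈ C <;> simp [hx]
    rw [e]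
    exact hm (measurableSet_singleton 1)

/-- the inequality for Walsh polynomials with mean zero -/
theorem bound_V {Γ : Type} [Group Γ] (γ : ℕ → Γ)
    (hγ : Function.Injective (FreeGroup.lift γ : FreeGroup ℕ →* Γ)) (N : ℕ)
    (h : (Γ → Bool) → ℝ) (hV : h ∈ V Γ) (h0 : ∫ x, h x ∂(coinPi Γ) = 0) :
    ∫ x, (∑ j ∈ range N, h (shift (γ j) x)) ^ 2 ∂(coinPi Γ) ≤
      4 * N * ∫ x, h x ^ 2 ∂(coinPi Γ) := by
  classical
  rw [V, Finsupp.mem_span_range_iff_exists_finsupp] at hV
  obtain ⟨c, hc⟩ := hV
  have hx : ∀ x, h x = ∑ A ∈ c.support, c A * wal A x := by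
    intro x
    rw [← hc, Finsupp.sum, Finset.sum_apply]
    rfl
  have hc0 : c ∅ = 0 := by
    have h1 : ∫ x, h x ∂(coinPi Γ) = ∑ A ∈ c.support, c A * ∫ x, wal A x ∂(coinPi Γ) := by
      simp_rw [hx]
      rw [integral_finsetSum _ fun A _ => (integrable_wal A).const_mul _]
      simp_rw [integral_const_mul]
    rw [h1] at h0
    by_contra hne
    have hmem : (∅ : Finset Γ) ∈ c.support := Finsupp.mem_support_iff.2 hne
    rw [sum_eq_single_of_mem ∅ hmem] at h0
    · simp [wal_empty] at h0
      exact hne h0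
    · intro A _ hA
      rw [integral_wal A (nonempty_iff_ne_empty.2 hA), mul_zero]
  set T : Finset (Finset Γ) := (range N).biUnion fun j => c.support.image (tr (γ j)⁻¹) with hT
  have hj : ∀ j ∈ range N, ∀ x, h (shift (γ j) x) = ∑ B ∈ T, c (tr (γ j) B) * wal B x := by
    intro j hj x
    have h1 : ∑ B ∈ c.support.image (tr (γ j)⁻¹), c (tr (γ j) B) * wal B x =
        ∑ B ∈ T, c (tr (γ j) B) * wal B x := by
      refine sum_subset (subset_biUnion_of_mem (fun j => c.support.image (tr (γ j)⁻¹)) hj) ?_
      intro B _ hB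
      have : c (tr (γ j) B) = 0 := by
        by_contra hne
        refine hB (mem_image.2 ⟨tr (γ j) B, Finsupp.mem_support_iff.2 hne, ?_⟩)
        rw [tr_tr, inv_mul_cancel, tr_one]
      rw [this, zero_mul]
    rw [← h1, sum_image fun a _ b _ hab => tr_injective _ hab, hx]
    refine sum_congr rfl fun A _ => ?_
    rw [wal_shift, tr_tr, mul_inv_cancel, tr_one]
  have hS : ∀ x, ∑ j ∈ range N, h (shift (γ j) x) =
      ∑ B ∈ T, (∑ j ∈ range N, c (tr (γ j) B)) * wal B x := by
    intro x
    rw [sum_congr rfl fun j hj' => hj j hj' x, sum_comm]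
    refine sum_congr rfl fun B _ => ?_
    rw [sum_mul]
  simp_rw [hS, hx]
  rw [parseval, parseval]
  have := free_family Γ γ hγ N c hc0 T
  have e : ∀ (j : ℕ) (B : Finset Γ), tr (γ j) B = B.image fun g => γ j * g := by
    intro j B
    ext x
    simp [tr]
  simp only [e]
  convert this using 3

theorem variance (Γ : Type) [Group Γ] [Countable Γ] (γ : ℕ → Γ)
    (hγ : Function.Injective (FreeGroup.lift γ : FreeGroup ℕ →* Γ)) (C : Set (Γ → Bool))
    (hC : MeasurableSet C) (N : ℕ) (hN : 0 < N) :
    ∫ x, ((∑ j ∈ Finset.range N, C.indicator (fun _ => (1 : ℝ)) (shift (γ j) x)) / N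
      - (coinPi Γ).real C) ^ 2 ∂(coinPi Γ) ≤ 16 / N := by
  classical
  set μ := coinPi Γ with hμ
  have hNr : (0 : ℝ) < N := Nat.cast_pos.2 hN
  -- approximation by a good set
  obtain ⟨C', hC', hlt⟩ := exists_measure_symmDiff_lt_of_generateFrom_isSetRing (μ := μ)
    (isSetRing_good Γ) ⟨{Set.univ}, Set.countable_singleton _,
      Set.singleton_subset_iff.2 (univ_mem_good Γ), by simp⟩ (generateFrom_good Γ) hC
      (ε := ENNReal.ofReal (1 / N)) (by simpa using hN)
  have hC'm : MeasurableSet C' := by
    rw [generateFrom_good Γ]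
    exact MeasurableSpace.measurableSet_generateFrom hC'
  set δ : ℝ := μ.real (symmDiff C' C) with hδ
  have hδN : δ ≤ 1 / N := by
    rw [hδ, measureReal_def]
    exact ENNReal.toReal_le_of_le_ofReal (by positivity) hlt.le
  have hδ0 : 0 ≤ δ := measureReal_nonneg
  set f : (Γ → Bool) → ℝ := fun x => C.indicator (fun _ => (1 : ℝ)) x - μ.real C with hf
  set h : (Γ → Bool) → ℝ := fun x => C'.indicator (fun _ => (1 : ℝ)) x - μ.real C' with hh
  have hfm : Measurable f := (measurable_const.indicator hC).sub measurable_const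
  have hhm : Measurable h := (measurable_const.indicator hC'm).sub measurable_const
  have hind : ∀ (D : Set (Γ → Bool)) (x : Γ → Bool), 0 ≤ D.indicator (fun _ => (1 : ℝ)) x ∧
      D.indicator (fun _ => (1 : ℝ)) x ≤ 1 := by
    intro D x
    by_cases hx : x ∈ D <;> simp [hx]
  have hre : ∀ D : Set (Γ → Bool), 0 ≤ μ.real D ∧ μ.real D ≤ 1 := fun D =>
    ⟨measureReal_nonneg, measureReal_le_one⟩
  have hfb : ∀ x, |f x| ≤ 1 := by
    intro x
    rw [abs_le]
    simp only [hf]
    constructor <;> linarith [(hind C x).1, (hind C x).2, (hre C).1, (hre C).2]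
  have hhb : ∀ x, |h x| ≤ 1 := by
    intro x
    rw [abs_le]
    simp only [hh]
    constructor <;> linarith [(hind C' x).1, (hind C' x).2, (hre C').1, (hre C').2]
  -- mean and square of h
  have hV : h ∈ V Γ := (V Γ).sub_mem hC' (const_mem _)
  have h0 : ∫ x, h x ∂μ = 0 := by
    simp only [hh]
    rw [integral_sub ((integrable_const _).indicator hC'm) (integrable_const _),
      integral_indicator_const _ hC'm, integral_const]
    simp
  have hb := bound_V γ hγ N h hV h0
  have hh1 : ∫ x, h x ^ 2 ∂μ ≤ 1 := by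
    have : ∫ x, h x ^ 2 ∂μ ≤ ∫ _, (1 : ℝ) ∂μ := by
      refine integral_mono_of_nonneg (Filter.Eventually.of_forall fun x => sq_nonneg _)
        (integrable_const _) (Filter.Eventually.of_forall fun x => ?_)
      exact (sq_le_one_iff_abs_le_one _).2 (hhb x)
    simpa using this
  -- the difference
  set u : (Γ → Bool) → ℝ := fun x => f x - h x with hu
  have hum : Measurable u := hfm.sub hhm
  have hub : ∀ x, |u x| ≤ 2 := fun x => by
    simp only [hu]
    exact (abs_sub _ _).trans (by linarith [hfb x, hhb x])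
  have husq : ∫ x, u x ^ 2 ∂μ ≤ 4 * δ := by
    have h1 : ∀ x, u x ^ 2 ≤ 2 * (symmDiff C' C).indicator (fun _ => (1 : ℝ)) x +
        2 * (μ.real C - μ.real C') ^ 2 := by
      intro x
      have h2 : (C.indicator (fun _ => (1 : ℝ)) x - C'.indicator (fun _ => (1 : ℝ)) x) ^ 2 =
          (symmDiff C' C).indicator (fun _ => (1 : ℝ)) x := by
        by_cases hx : x ∈ C <;> by_cases hy : x ∈ C' <;>
          simp [hx, hy, Set.indicator, Set.mem_symmDiff]
      have h3 : u x = (C.indicator (fun _ => (1 : ℝ)) x - C'.indicator (fun _ => (1 : ℝ)) x) -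
          (μ.real C - μ.real C') := by
        simp only [hu, hf, hh]
        ring
      rw [h3, ← h2]
      nlinarith [sq_nonneg ((C.indicator (fun _ => (1 : ℝ)) x - C'.indicator (fun _ => (1 : ℝ)) x) +
        (μ.real C - μ.real C'))]
    have hsd : MeasurableSet (symmDiff C' C) := hC'm.symmDiff hC
    have h4 : |μ.real C - μ.real C'| ≤ δ := by
      have e1 : μ.real C ≤ μ.real C' + δ := by
        calc μ.real C ≤ μ.real (C' ∪ symmDiff C' C) := by
              refine measureReal_mono ?_ (measure_ne_top _ _)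
              intro x hx
              by_cases hx' : x ∈ C'
              · exact Or.inl hx'
              · exact Or.inr (Or.inr ⟨hx, hx'⟩)
          _ ≤ _ := measureReal_union_le _ _
      have e2 : μ.real C' ≤ μ.real C + δ := by
        calc μ.real C' ≤ μ.real (C ∪ symmDiff C' C) := by
              refine measureReal_mono ?_ (measure_ne_top _ _)
              intro x hx
              by_cases hx' : x ∈ C
              · exact Or.inl hx'
              · exact Or.inr (Or.inl ⟨hx, hx'⟩)
          _ ≤ _ := measureReal_union_le _ _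
      rw [abs_le]
      constructor <;> linarith
    have h5 : (μ.real C - μ.real C') ^ 2 ≤ δ := by
      have h6 : |μ.real C - μ.real C'| ≤ 1 := by
        rw [abs_le]
        constructor <;> linarith [(hre C).1, (hre C).2, (hre C').1, (hre C').2]
      rw [← sq_abs]
      nlinarith [abs_nonneg (μ.real C - μ.real C')]
    calc ∫ x, u x ^ 2 ∂μ ≤ ∫ x, (2 * (symmDiff C' C).indicator (fun _ => (1 : ℝ)) x +
          2 * (μ.real C - μ.real C') ^ 2) ∂μ := by
          refine integral_mono_of_nonneg (Filter.Eventually.of_forall fun x => sq_nonneg _) ?_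
            (Filter.Eventually.of_forall h1)
          exact (((integrable_const _).indicator hsd).const_mul _).add (integrable_const _)
      _ = 2 * δ + 2 * (μ.real C - μ.real C') ^ 2 := by
          rw [integral_add (((integrable_const _).indicator hsd).const_mul _) (integrable_const _),
            integral_const_mul, integral_indicator_const _ hsd, integral_const]
          simp [hδ]
      _ ≤ 4 * δ := by linarith
  -- the sum of the shifts of the difference
  have hSu : ∫ x, (∑ j ∈ range N, u (shift (γ j) x)) ^ 2 ∂μ ≤ 4 * N := by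
    have h1 : ∀ x, (∑ j ∈ range N, u (shift (γ j) x)) ^ 2 ≤
        N * ∑ j ∈ range N, u (shift (γ j) x) ^ 2 := by
      intro x
      have := sq_sum_le_card_mul_sum_sq (s := range N) (f := fun j => u (shift (γ j) x))
      simpa using this
    have hint : ∀ j, Integrable (fun x => u (shift (γ j) x) ^ 2) μ := by
      intro j
      refine Integrable.of_bound
        ((hum.comp (measurable_shift _)).pow_const 2).aestronglyMeasurable 4
        (Filter.Eventually.of_forall fun x => ?_)
      rw [Real.norm_eq_abs, abs_of_nonneg (sq_nonneg _), ← sq_abs]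
      nlinarith [hub (shift (γ j) x), abs_nonneg (u (shift (γ j) x))]
    have hinv : ∀ j, ∫ x, u (shift (γ j) x) ^ 2 ∂μ = ∫ x, u x ^ 2 ∂μ := by
      intro j
      have h2 := (measurePreserving_shift (γ j)).map_eq
      conv_rhs => rw [hμ, ← h2]
      rw [integral_map (measurable_shift _).aemeasurable (hum.pow_const 2).aestronglyMeasurable]
    calc ∫ x, (∑ j ∈ range N, u (shift (γ j) x)) ^ 2 ∂μ
        ≤ ∫ x, N * ∑ j ∈ range N, u (shift (γ j) x) ^ 2 ∂μ := by
          refine integral_mono_of_nonneg (Filter.Eventually.of_forall fun x => sq_nonneg _) ?_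
            (Filter.Eventually.of_forall h1)
          exact (integrable_finsetSum _ fun j _ => hint j).const_mul _
      _ = N * (N * ∫ x, u x ^ 2 ∂μ) := by
          rw [integral_const_mul, integral_finsetSum _ fun j _ => hint j]
          simp_rw [hinv]
          simp
      _ ≤ N * (N * (4 * (1 / N))) := by
          gcongr
          exact husq.trans (by gcongr)
      _ = 4 * N := by field_simp
  -- conclusion
  have hfin : ∫ x, (∑ j ∈ range N, f (shift (γ j) x)) ^ 2 ∂μ ≤ 16 * N := by
    have hbS : ∀ (w : (Γ → Bool) → ℝ) (b : ℝ), 0 ≤ b → Measurable w → (∀ x, |w x| ≤ b) →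
        Integrable (fun x => (∑ j ∈ range N, w (shift (γ j) x)) ^ 2) μ := by
      intro w b hb0 hw hwb
      refine Integrable.of_bound ((Finset.measurable_sum _ fun j _ =>
        hw.comp (measurable_shift (γ j))).pow_const 2).aestronglyMeasurable ((N * b) ^ 2)
        (Filter.Eventually.of_forall fun x => ?_)
      rw [Real.norm_eq_abs, abs_of_nonneg (sq_nonneg _), ← sq_abs]
      refine pow_le_pow_left₀ (abs_nonneg _) ?_ 2
      calc |∑ j ∈ range N, w (shift (γ j) x)| ≤ ∑ j ∈ range N, |w (shift (γ j) x)| :=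
            abs_sum_le_sum_abs _ _
        _ ≤ ∑ _j ∈ range N, b := sum_le_sum fun j _ => hwb _
        _ = N * b := by simp
    calc ∫ x, (∑ j ∈ range N, f (shift (γ j) x)) ^ 2 ∂μ
        ≤ ∫ x, (2 * (∑ j ∈ range N, h (shift (γ j) x)) ^ 2 +
            2 * (∑ j ∈ range N, u (shift (γ j) x)) ^ 2) ∂μ := by
          refine integral_mono_of_nonneg (Filter.Eventually.of_forall fun x => sq_nonneg _)
            (((hbS h 1 zero_le_one hhm hhb).const_mul _).add
              ((hbS u 2 zero_le_two hum hub).const_mul _))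
            (Filter.Eventually.of_forall fun x => ?_)
          have e : ∑ j ∈ range N, f (shift (γ j) x) = ∑ j ∈ range N, h (shift (γ j) x) +
              ∑ j ∈ range N, u (shift (γ j) x) := by
            rw [← sum_add_distrib]
            exact sum_congr rfl fun j _ => by simp only [hu]; ring
          simp only [e]
          nlinarith [sq_nonneg (∑ j ∈ range N, h (shift (γ j) x) -
              ∑ j ∈ range N, u (shift (γ j) x))]
      _ = 2 * ∫ x, (∑ j ∈ range N, h (shift (γ j) x)) ^ 2 ∂μ +
            2 * ∫ x, (∑ j ∈ range N, u (shift (γ j) x)) ^ 2 ∂μ := by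
          rw [integral_add ((hbS h 1 zero_le_one hhm hhb).const_mul _)
              ((hbS u 2 zero_le_two hum hub).const_mul _), integral_const_mul, integral_const_mul]
      _ ≤ 2 * (4 * N * 1) + 2 * (4 * N) := by
          gcongr
          exact hb.trans (by gcongr)
      _ = 16 * N := by ring
  have hpt : ∀ x, ((∑ j ∈ Finset.range N, C.indicator (fun _ => (1 : ℝ)) (shift (γ j) x)) / N
      - μ.real C) ^ 2 = (1 / (N : ℝ) ^ 2) * (∑ j ∈ range N, f (shift (γ j) x)) ^ 2 := by
    intro x
    have e : ∑ j ∈ range N, f (shift (γ j) x) =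
        (∑ j ∈ Finset.range N, C.indicator (fun _ => (1 : ℝ)) (shift (γ j) x)) - N * μ.real C := by
      simp only [hf]
      rw [sum_sub_distrib]
      simp
    rw [e]
    field_simp
  simp_rw [hpt]
  rw [integral_const_mul]
  calc 1 / (N : ℝ) ^ 2 * ∫ x, (∑ j ∈ range N, f (shift (γ j) x)) ^ 2 ∂μ
      ≤ 1 / (N : ℝ) ^ 2 * (16 * N) := mul_le_mul_of_nonneg_left hfin (by positivity)
    _ = 16 / (N : ℝ) := by field_simp

end Pool.Agent.Lib.MP_75b31c_lc.H74
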