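import Pool.Agent.Lib.MP_75b31c_lc.H40.Defs
import Pool.Agent.Lib.MP_75b31c_lc.H74.Var

set_option autoImplicit false

/-!
# Module ACC: almost sure polynomial rate of equidistribution (helper74)
-/

namespace Pool.Agent.Lib.MP_75b31c_lc.H74

open MeasureTheory Filter Topology Pool.Agent.Lib.MP_75b31c_lc.H40

theorem meas_val (n : ℕ) : Measurable (val n) := by
  induction n with
  | zero => exact measurable_const
  | succ n ih =>
    have : (val (n + 1)) = fun z : ℕ → Bool => 2 * val n z + (z n).toNat := rfl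
    rw [this]
    exact (ih.const_mul 2).add ((measurable_of_countable Bool.toNat).comp (measurable_pi_apply n))

theorem cnt_eq (N n v : ℕ) (s : ℕ → ℕ → Bool) :
    (cnt N n v s : ℝ) = ∑ j ∈ Finset.range N, if val n (s j) < v then (1 : ℝ) else 0 := by
  unfold cnt
  induction N with
  | zero => simp
  | succ N ih =>
    rw [List.range_succ, List.filter_append, List.length_append, Finset.sum_range_succ]
    push_cast
    rw [ih]
    congr 1
    by_cases h : val n (s N) < v <;> simp [h]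

theorem ae_accurate (Γ : Type) [Group Γ] [Countable Γ] (γ : ℕ → Γ)
    (hγ : Function.Injective (FreeGroup.lift γ : FreeGroup ℕ →* Γ)) (f : (Γ → Bool) → ℕ → Bool)
    (hf : Measurable f) :
    ∀ᵐ x ∂(coinPi Γ), Accurate ((coinPi Γ).map f) fun j => f (shift (γ j) x) := by
  classical
  set μ := coinPi Γ with hμ
  set C : ℕ → ℕ → Set (Γ → Bool) := fun n v => {x | val n (f x) < v} with hC
  have hCm : ∀ n v, MeasurableSet (C n v) := fun n v =>
    ((meas_val n).comp hf) (measurableSet_Iio (a := v))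
  have hcdf : ∀ n v, cdf (μ.map f) n v = μ.real (C n v) := by
    intro n v
    have h1 : MeasurableSet {u : ℕ → Bool | val n u < v} :=
      (meas_val n) (measurableSet_Iio (a := v))
    unfold cdf
    rw [map_measureReal_apply hf h1]
    rfl
  set g : ℕ → ℕ → ℕ → (Γ → Bool) → ℝ := fun m n v x =>
    ((∑ j ∈ Finset.range (32 ^ m), (C n v).indicator (fun _ => (1 : ℝ)) (shift (γ j) x)) /
      ((32 ^ m : ℕ) : ℝ) - μ.real (C n v)) ^ 2 with hg
  have hgm : ∀ m n v, Measurable (g m n v) := by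
    intro m n v
    refine (((Finset.measurable_sum _ fun j _ => ?_).div_const _).sub_const _).pow_const 2
    exact (measurable_const.indicator (hCm n v)).comp (measurable_shift (γ j))
  have hgb : ∀ m n v x, g m n v x ≤ 1 := by
    intro m n v x
    have hN : (0 : ℝ) < ((32 ^ m : ℕ) : ℝ) := by positivity
    have h1 : 0 ≤ ∑ j ∈ Finset.range (32 ^ m),
        (C n v).indicator (fun _ => (1 : ℝ)) (shift (γ j) x) :=
      Finset.sum_nonneg fun j _ => Set.indicator_nonneg (fun _ _ => zero_le_one) _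
    have h2 : ∑ j ∈ Finset.range (32 ^ m),
        (C n v).indicator (fun _ => (1 : ℝ)) (shift (γ j) x) ≤ ((32 ^ m : ℕ) : ℝ) := by
      calc _ ≤ ∑ j ∈ Finset.range (32 ^ m), (1 : ℝ) := Finset.sum_le_sum fun j _ =>
            Set.indicator_le_self' (fun _ _ => zero_le_one) _
        _ = _ := by simp
    have h3 : 0 ≤ (∑ j ∈ Finset.range (32 ^ m),
        (C n v).indicator (fun _ => (1 : ℝ)) (shift (γ j) x)) / ((32 ^ m : ℕ) : ℝ) := by positivity
    have h4 : (∑ j ∈ Finset.range (32 ^ m),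
        (C n v).indicator (fun _ => (1 : ℝ)) (shift (γ j) x)) / ((32 ^ m : ℕ) : ℝ) ≤ 1 := by
      rw [div_le_one hN]
      exact h2
    have h5 : 0 ≤ μ.real (C n v) := measureReal_nonneg
    have h6 : μ.real (C n v) ≤ 1 := measureReal_le_one
    rw [hg]
    simp only
    rw [sq_le_one_iff_abs_le_one, abs_le]
    constructor <;> linarith
  have hgi : ∀ m n v, Integrable (g m n v) μ := by
    intro m n v
    refine Integrable.of_bound (hgm m n v).aestronglyMeasurable 1 (Eventually.of_forall fun x => ?_)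
    rw [Real.norm_eq_abs, abs_of_nonneg (sq_nonneg _)]
    exact hgb m n v x
  -- Chebyshev
  have hcheb : ∀ m n v, μ.real {x | 1 / 4 ^ m ≤ g m n v x} ≤ 16 / 8 ^ m := by
    intro m n v
    have h1 := mul_meas_ge_le_integral_of_nonneg (μ := μ) (f := g m n v)
      (Eventually.of_forall fun x => sq_nonneg _) (hgi m n v) (1 / 4 ^ m)
    have h2 := variance Γ γ hγ (C n v) (hCm n v) (32 ^ m) (by positivity)
    have h3 : ∫ x, g m n v x ∂μ ≤ 16 / ((32 ^ m : ℕ) : ℝ) := h2
    have h4 : (1 : ℝ) / 4 ^ m * μ.real {x | 1 / 4 ^ m ≤ g m n v x} ≤ 16 / 32 ^ m := by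
      refine h1.trans (h3.trans (le_of_eq ?_))
      push_cast
      rfl
    have h5 : (32 : ℝ) ^ m = 4 ^ m * 8 ^ m := by
      rw [← mul_pow]
      norm_num
    have h6 : (0 : ℝ) < 4 ^ m := by positivity
    rw [h5, div_mul_eq_mul_div, one_mul, div_le_iff₀ h6] at h4
    refine h4.trans (le_of_eq ?_)
    field_simp
  -- the bad sets
  set E : ℕ → Set (Γ → Bool) := fun m => ⋃ n ∈ Finset.range (m + 1), ⋃ v ∈ Finset.range (2 ^ m + 1),
    {x | 1 / 4 ^ m ≤ g m n v x} with hE
  have hEle : ∀ m, μ (E m) ≤ ENNReal.ofReal (32 * (1 / 2) ^ m) := by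
    intro m
    have h1 : μ.real (E m) ≤ ∑ n ∈ Finset.range (m + 1), ∑ v ∈ Finset.range (2 ^ m + 1),
        (16 / 8 ^ m : ℝ) := by
      refine (measureReal_biUnion_finset_le _ _).trans (Finset.sum_le_sum fun n _ => ?_)
      exact (measureReal_biUnion_finset_le _ _).trans (Finset.sum_le_sum fun v _ => hcheb m n v)
    have h2 : ∑ n ∈ Finset.range (m + 1), ∑ v ∈ Finset.range (2 ^ m + 1), (16 / 8 ^ m : ℝ) ≤
        32 * (1 / 2) ^ m := by
      simp only [Finset.sum_const, Finset.card_range, nsmul_eq_mul]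
      push_cast
      have h3 : (m : ℝ) + 1 ≤ 2 ^ m := by
        exact_mod_cast Nat.lt_two_pow_self (n := m)
      have h4 : (1 : ℝ) ≤ 2 ^ m := one_le_pow₀ (by norm_num)
      have h5 : (8 : ℝ) ^ m = 2 ^ m * (2 ^ m * 2 ^ m) := by
        rw [← mul_pow, ← mul_pow]
        norm_num
      rw [h5, one_div, inv_pow]
      have h6 : (0 : ℝ) < 2 ^ m := by positivity
      rw [← sub_nonneg]
      have h7 : (32 : ℝ) * (2 ^ m)⁻¹ - ((m : ℝ) + 1) * ((2 ^ m + 1) * (16 / (2 ^ m * (2 ^ m * 2 ^ m))))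
          = 16 * (2 * 2 ^ m * 2 ^ m - (m + 1) * (2 ^ m + 1)) / (2 ^ m * (2 ^ m * 2 ^ m)) := by
        field_simp
        ring
      rw [h7]
      apply div_nonneg _ (by positivity)
      nlinarith
    rw [← ENNReal.ofReal_toReal (measure_ne_top μ (E m))]
    exact ENNReal.ofReal_le_ofReal (h1.trans h2)
  have hsum : ∑' m, μ (E m) ≠ ⊤ := by
    have hs : Summable fun m : ℕ => (32 : ℝ) * (1 / 2) ^ m := summable_geometric_two.mul_left 32
    refine ne_top_of_le_ne_top ?_ (ENNReal.tsum_le_tsum hEle)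
    rw [← ENNReal.ofReal_tsum_of_nonneg (fun m => by positivity) hs]
    exact ENNReal.ofReal_ne_top
  filter_upwards [ae_eventually_notMem hsum] with x hx
  obtain ⟨m₀, hm₀⟩ := eventually_atTop.1 hx
  refine ⟨m₀, fun m hm n hn v hv => ?_⟩
  have h1 : x ∉ {x | 1 / 4 ^ m ≤ g m n v x} := by
    intro hmem
    refine hm₀ m hm ?_
    simp only [hE, Set.mem_iUnion]
    exact ⟨n, Finset.mem_range.2 (by omega), v, Finset.mem_range.2
      (Nat.lt_succ_of_le (hv.trans (Nat.pow_le_pow_right (by norm_num) hn))), hmem⟩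
  have h2 : g m n v x < 1 / 4 ^ m := not_le.1 h1
  have h3 : (cnt (32 ^ m) n v (fun j => f (shift (γ j) x)) : ℝ) =
      ∑ j ∈ Finset.range (32 ^ m), (C n v).indicator (fun _ => (1 : ℝ)) (shift (γ j) x) := by
    rw [cnt_eq]
    refine Finset.sum_congr rfl fun j _ => ?_
    simp only [hC, Set.indicator, Set.mem_ofPred_eq]
  rw [hcdf, h3]
  have h4 : (1 : ℝ) / 4 ^ m = (1 / 2 ^ m) ^ 2 := by
    rw [div_pow, one_pow, ← pow_mul, mul_comm m 2, pow_mul]
    norm_num
  rw [h4] at h2
  have h5 := abs_le_of_sq_le_sq' (a := (∑ j ∈ Finset.range (32 ^ m),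
    (C n v).indicator (fun _ => (1 : ℝ)) (shift (γ j) x)) / ((32 ^ m : ℕ) : ℝ) - μ.real (C n v))
    (b := 1 / 2 ^ m) h2.le (by positivity)
  push_cast at h5
  rw [abs_le]
  exact h5

end Pool.Agent.Lib.MP_75b31c_lc.H74
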