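import Mathlib

set_option autoImplicit false

/-!
# Module DENS: the density lemma (helper74)
-/

namespace Pool.Agent.Lib.MP_75b31c_lc.H74

open MeasureTheory Filter Topology Set Metric

/-- level sets of the density -/
theorem exists_level (m : Measure ℝ) [IsFiniteMeasure m] (hm : m ≪ volume) (h0 : m ≠ 0)
    {T : Set ℝ} (hT : MeasurableSet T) (hT' : m Tᶜ = 0) :
    ∃ a : ENNReal, a ≠ 0 ∧ a ≠ ⊤ ∧ ∃ S : Set ℝ, MeasurableSet S ∧ S ⊆ T ∧ volume S ≠ 0 ∧
      ∀ E ⊆ S, MeasurableSet E → a * volume E ≤ m E ∧ m E ≤ a * (3 / 2) * volume E := by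
  set w := m.rnDeriv volume with hw
  have hwm : Measurable w := Measure.measurable_rnDeriv _ _
  have hmw : m = volume.withDensity w := (Measure.withDensity_rnDeriv_eq m volume hm).symm
  set q : ENNReal := 3 / 2 with hq
  have hq1 : 1 < q := by
    rw [hq, ENNReal.lt_div_iff_mul_lt (Or.inl (by norm_num)) (Or.inl (by norm_num))]
    norm_num
  have hqt : q ≠ ⊤ := by
    rw [hq]
    exact (ENNReal.div_lt_top (by norm_num) (by norm_num)).ne
  have hq0 : q ≠ 0 := (zero_lt_one.trans hq1).ne'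
  have hex : ∃ n : ℤ, volume (T ∩ w ⁻¹' Ico (q ^ n) (q ^ (n + 1))) ≠ 0 := by
    by_contra hcon
    push Not at hcon
    apply h0
    have h1 : volume (T ∩ {t | w t ≠ 0 ∧ w t ≠ ⊤}) = 0 := by
      refine measure_mono_null ?_ (measure_iUnion_null hcon)
      rintro t ⟨htT, ht0, htt⟩
      obtain ⟨n, hn⟩ := ENNReal.exists_mem_Ico_zpow ht0 htt hq1 hqt
      exact mem_iUnion.2 ⟨n, htT, hn⟩
    have h2 : ∀ᵐ t ∂(volume : Measure ℝ), w t < ⊤ := Measure.rnDeriv_lt_top _ _
    have h3 : ∀ᵐ t ∂(volume.restrict T : Measure ℝ), w t = 0 := by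
      rw [ae_restrict_iff' hT]
      have h4 : ∀ᵐ t ∂(volume : Measure ℝ), ¬ t ∈ (T ∩ {t | w t ≠ 0 ∧ w t ≠ ⊤}) :=
        measure_eq_zero_iff_ae_notMem.1 h1
      filter_upwards [h2, h4] with t ht ht' htT
      by_contra hne
      exact ht' ⟨htT, hne, ht.ne⟩
    have h5 : m T = 0 := by
      rw [hmw, withDensity_apply _ hT, lintegral_congr_ae h3]
      simp
    rw [← Measure.measure_univ_eq_zero, ← union_compl_self T]
    exact measure_union_null h5 hT'
  obtain ⟨n, hn⟩ := hex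
  refine ⟨q ^ n, (ENNReal.zpow_pos hq0 hqt n).ne', ENNReal.zpow_ne_top hq0 hqt n,
    T ∩ w ⁻¹' Ico (q ^ n) (q ^ (n + 1)), hT.inter (hwm measurableSet_Ico), inter_subset_left, hn, ?_⟩
  intro E hE hEm
  have hlow : ∀ t ∈ E, q ^ n ≤ w t := fun t ht => (hE ht).2.1
  have hup : ∀ t ∈ E, w t ≤ q ^ n * q := fun t ht => by
    have := (hE ht).2.2.le
    rwa [ENNReal.zpow_add hq0 hqt, zpow_one] at this
  constructor
  · calc q ^ n * volume E = ∫⁻ _ in E, q ^ n := by rw [setLIntegral_const]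
      _ ≤ ∫⁻ t in E, w t := setLIntegral_mono' hEm hlow
      _ = m E := by rw [hmw, withDensity_apply _ hEm]
  · calc m E = ∫⁻ t in E, w t := by
          conv_lhs => rw [hmw]
          rw [withDensity_apply _ hEm]
      _ ≤ ∫⁻ _ in E, q ^ n * q := setLIntegral_mono' hEm hup
      _ = q ^ n * q * volume E := by rw [setLIntegral_const]

/-- the set of points of `S` moved into `S` by a rational contraction has positive measure -/
theorem exists_rat (S : Set ℝ) (hS : MeasurableSet S) (hS0 : volume S ≠ 0) :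
    ∃ (x₀ : ℚ), ∃ D : Set ℝ, MeasurableSet D ∧ D ⊆ S ∧ (fun t : ℝ => (t + x₀) / 2) '' D ⊆ S ∧
      volume D ≠ 0 ∧ volume D ≠ ⊤ := by
  have hae := IsUnifLocDoublingMeasure.ae_tendsto_measure_inter_div.{0, 0}
    (volume : Measure ℝ) S 1
  have hne : (volume.restrict S : Measure ℝ) ≠ 0 := by
    rw [Ne, Measure.restrict_eq_zero]
    exact hS0
  haveI : (ae (volume.restrict S : Measure ℝ)).NeBot := ae_neBot.2 hne
  obtain ⟨y, hy⟩ := hae.exists
  have hδ : ∀ n : ℕ, (0 : ℝ) < 1 / ((n : ℝ) + 1) := fun n => by positivity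
  have hex : ∀ n : ℕ, ∃ x : ℚ, |y - x| ≤ 1 / ((n : ℝ) + 1) := by
    intro n
    obtain ⟨x, hx1, hx2⟩ := exists_rat_btwn (show y < y + 1 / ((n : ℝ) + 1) by linarith [hδ n])
    exact ⟨x, by rw [abs_le]; constructor <;> linarith [hδ n]⟩
  choose w hw using hex
  have ht := hy (ι := ℕ) (l := atTop) (fun n => (w n : ℝ)) (fun n => 1 / ((n : ℝ) + 1))
    (by
      rw [tendsto_nhdsWithin_iff]
      exact ⟨tendsto_one_div_add_atTop_nhds_zero_nat, Eventually.of_forall hδ⟩)
    (Eventually.of_forall fun n => by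
      rw [mem_closedBall, Real.dist_eq, one_mul]
      exact hw n)
  have hlt : ∀ᶠ n : ℕ in atTop, (2 / 3 : ENNReal) <
      volume (S ∩ closedBall (w n : ℝ) (1 / ((n : ℝ) + 1))) /
        volume (closedBall (w n : ℝ) (1 / ((n : ℝ) + 1))) := by
    refine ht.eventually (lt_mem_nhds ?_)
    rw [ENNReal.div_lt_iff (Or.inl (by norm_num)) (Or.inl (by norm_num))]
    norm_num
  obtain ⟨n, hn⟩ := hlt.exists
  set δ : ℝ := 1 / ((n : ℝ) + 1) with hδn
  set x₀ : ℚ := w n with hx₀
  have hδ0 : 0 < δ := hδ n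
  set B : Set ℝ := closedBall (x₀ : ℝ) δ with hB
  have hBm : MeasurableSet B := isClosed_closedBall.measurableSet
  have hBt : volume B ≠ ⊤ := measure_closedBall_lt_top.ne
  have hB0 : volume B ≠ 0 := (measure_closedBall_pos volume _ hδ0).ne'
  set ρ : ℝ → ℝ := fun t => (t + x₀) / 2 with hρ
  have hρm : Measurable ρ := by fun_prop
  set D : Set ℝ := (S ∩ B) ∩ ρ ⁻¹' S with hD
  have hDm : MeasurableSet D := (hS.inter hBm).inter (hρm hS)
  have hpre : ∀ E : Set ℝ, volume (ρ ⁻¹' E) = 2 * volume E := by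
    intro E
    have e1 : ρ ⁻¹' E = (fun t : ℝ => t + (x₀ : ℝ)) ⁻¹' ((fun s : ℝ => s * (2⁻¹ : ℝ)) ⁻¹' E) := by
      ext t
      simp only [hρ, mem_preimage]
      rw [div_eq_mul_inv]
    rw [e1, measure_preimage_add_right, Real.volume_preimage_mul_right (by norm_num)]
    norm_num
  have hcov : B ⊆ D ∪ ((B \ S) ∪ ρ ⁻¹' (B \ S)) := by
    intro t ht
    by_cases h1 : t ∈ S
    · by_cases h2 : ρ t ∈ S
      · exact Or.inl ⟨⟨h1, ht⟩, h2⟩
      · refine Or.inr (Or.inr ⟨?_, h2⟩)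
        rw [hB, mem_closedBall, Real.dist_eq] at ht ⊢
        simp only [hρ]
        rw [abs_le] at ht ⊢
        constructor <;> linarith [ht.1, ht.2]
    · exact Or.inr (Or.inl ⟨ht, h1⟩)
  refine ⟨x₀, D, hDm, fun t ht => ht.1.1, ?_, ?_, ?_⟩
  · rintro _ ⟨t, ht, rfl⟩
    exact ht.2
  · intro hD0
    have h1 : volume B ≤ 3 * volume (B \ S) := by
      calc volume B ≤ volume (D ∪ ((B \ S) ∪ ρ ⁻¹' (B \ S))) := measure_mono hcov
        _ ≤ volume D + (volume (B \ S) + volume (ρ ⁻¹' (B \ S))) :=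
          (measure_union_le _ _).trans (by gcongr; exact measure_union_le _ _)
        _ = 3 * volume (B \ S) := by
          rw [hD0, hpre]
          ring
    have h2 : volume (B ∩ S) + volume (B \ S) = volume B := measure_inter_add_diff B hS
    rw [inter_comm S B, ENNReal.lt_div_iff_mul_lt (Or.inl hB0) (Or.inl hBt)] at hn
    have hit : volume (B ∩ S) ≠ ⊤ := ne_top_of_le_ne_top hBt (measure_mono inter_subset_left)
    have hdt : volume (B \ S) ≠ ⊤ := ne_top_of_le_ne_top hBt (measure_mono diff_subset)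
    have r1 : (volume B).toReal ≤ 3 * (volume (B \ S)).toReal := by
      have := ENNReal.toReal_mono (ENNReal.mul_ne_top (by norm_num) hdt) h1
      simpa [ENNReal.toReal_mul] using this
    have r2 : (volume (B ∩ S)).toReal + (volume (B \ S)).toReal = (volume B).toReal := by
      rw [← ENNReal.toReal_add hit hdt, h2]
    have r3 : 2 / 3 * (volume B).toReal < (volume (B ∩ S)).toReal := by
      have := (ENNReal.toReal_lt_toReal (ENNReal.mul_ne_top
        (ENNReal.div_lt_top (by norm_num) (by norm_num)).ne hBt) hit).2 hn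
      simpa [ENNReal.toReal_mul, ENNReal.toReal_div] using this
    linarith
  · exact ne_top_of_le_ne_top hBt (measure_mono fun t ht => ht.1.2)

theorem density_lemma (m : Measure ℝ) [IsFiniteMeasure m] (hm : m ≪ volume) (h0 : m ≠ 0) {T : Set ℝ}
    (hT : MeasurableSet T) (hT' : m Tᶜ = 0) :
    ∃ (x₀ : ℚ) (D : Set ℝ), MeasurableSet D ∧ D ⊆ T ∧ (fun t : ℝ => (t + x₀) / 2) '' D ⊆ T ∧
      m ((fun t : ℝ => (t + x₀) / 2) '' D) < m D := by
  obtain ⟨a, ha0, hat, S, hSm, hST, hS0, hS⟩ := exists_level m hm h0 hT hT'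
  obtain ⟨x₀, D, hDm, hDS, hρD, hD0, hDt⟩ := exists_rat S hSm hS0
  refine ⟨x₀, D, hDm, hDS.trans hST, hρD.trans hST, ?_⟩
  have himg : (fun t : ℝ => (t + x₀) / 2) '' D =
      (fun t : ℝ => (2 : ℝ) * t) ⁻¹' ((fun s : ℝ => s + (-(x₀ : ℝ))) ⁻¹' D) := by
    ext s
    simp only [mem_image, mem_preimage]
    constructor
    · rintro ⟨t, ht, rfl⟩
      convert ht using 1
      ring
    · intro hs
      exact ⟨_, hs, by ring⟩
  have hm1 : MeasurableSet ((fun t : ℝ => (t + x₀) / 2) '' D) := by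
    rw [himg]
    exact (by fun_prop : Measurable fun t : ℝ => (2 : ℝ) * t)
      ((by fun_prop : Measurable fun s : ℝ => s + (-(x₀ : ℝ))) hDm)
  have hvol : volume ((fun t : ℝ => (t + x₀) / 2) '' D) = 2⁻¹ * volume D := by
    rw [himg, Real.volume_preimage_mul_left (by norm_num), measure_preimage_add_right]
    congr 1
    rw [abs_of_pos (by norm_num), ENNReal.ofReal_inv_of_pos (by norm_num)]
    norm_num
  calc m ((fun t : ℝ => (t + x₀) / 2) '' D)
      ≤ a * (3 / 2) * volume ((fun t : ℝ => (t + x₀) / 2) '' D) := (hS _ hρD hm1).2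
    _ = a * (3 / 4 * volume D) := by
      rw [hvol]
      have : (3 / 2 : ENNReal) * 2⁻¹ = 3 / 4 := by
        rw [div_eq_mul_inv, div_eq_mul_inv, mul_assoc, ← ENNReal.mul_inv (by norm_num) (by norm_num)]
        norm_num
      rw [← this]
      ring
    _ < a * volume D := by
      refine (ENNReal.mul_lt_mul_iff_right ha0 hat).2 ?_
      conv_rhs => rw [← one_mul (volume D)]
      refine ENNReal.mul_lt_mul_left hD0 hDt ?_
      rw [ENNReal.div_lt_iff (Or.inl (by norm_num)) (Or.inl (by norm_num))]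
      norm_num
    _ ≤ m D := (hS D hDS hDm).1

end Pool.Agent.Lib.MP_75b31c_lc.H74
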