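import Pool.Agent.Lib.MP_75b31c_lc.H40.Defs

set_option autoImplicit false

/-!
# Module SEL: a measurable selection and the injection lemma (helper74)
-/

namespace Pool.Agent.Lib.MP_75b31c_lc.H74

open MeasureTheory Set

/-- `h` is injective, with measurable image, on a measurable set of positive measure contained in
`E'`, if the fibres of `h` on `E'` are contained in orbits. -/
theorem selection (Γ : Type) [Group Γ] [Countable Γ] (X : Type) [MeasurableSpace X]
    [StandardBorelSpace X] [MulAction Γ X] (hact : ∀ γ : Γ, Measurable fun x : X => γ • x)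
    (μ : Measure X) [IsProbabilityMeasure μ] (hμ : ∀ γ : Γ, μ.map (fun x : X => γ • x) = μ)
    (E' : Set X) (hE : MeasurableSet E') (hE0 : μ E' ≠ 0) (h : X → ℝ) (hh : Measurable h)
    (hfib : ∀ x ∈ E', ∀ y ∈ E', h x = h y → ∃ γ : Γ, γ • x = y) :
    ∃ X₀ : Set X, MeasurableSet X₀ ∧ X₀ ⊆ E' ∧ Set.InjOn h X₀ ∧ MeasurableSet (h '' X₀) ∧
      μ X₀ ≠ 0 := by
  obtain ⟨φ, hφ⟩ := exists_measurableEmbedding_real X
  set F : X → ℝ × ℝ := fun x => (h x, φ x) with hF
  have hFm : Measurable F := hh.prodMk hφ.measurable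
  have hFi : Function.Injective F := fun x y hxy => hφ.injective (congrArg Prod.snd hxy)
  have hFe : MeasurableEmbedding F := hFm.measurableEmbedding hFi
  have hFE : MeasurableSet (F '' E') := hFe.measurableSet_image.2 hE
  have hpos : (μ.map F) (F '' E') ≠ 0 := by
    rw [hFe.map_apply, preimage_image_eq _ hFi]
    exact hE0
  obtain ⟨K', hK'sub, hK'c, hK'pos⟩ := hFE.exists_lt_isCompact (μ := μ.map F)
    (r := 0) (pos_iff_ne_zero.2 hpos)
  set K : Set X := F ⁻¹' K' with hK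
  have hKm : MeasurableSet K := hFm hK'c.measurableSet
  have hKE : K ⊆ E' := by
    intro x hx
    obtain ⟨y, hy, hxy⟩ := hK'sub hx
    rwa [← hFi hxy]
  have hK0 : μ K ≠ 0 := by
    rw [hK, ← hFe.map_apply]
    exact hK'pos.ne'
  set X₀ : Set X := K ∩ ⋂ γ : Γ, {x | γ • x ∈ K → h (γ • x) = h x → φ x ≤ φ (γ • x)} with hX₀
  have hX₀m : MeasurableSet X₀ := by
    refine hKm.inter (MeasurableSet.iInter fun γ => ?_)
    have e : {x : X | γ • x ∈ K → h (γ • x) = h x → φ x ≤ φ (γ • x)} =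
        ({x | γ • x ∈ K}ᶜ ∪ {x | h (γ • x) = h x}ᶜ) ∪ {x | φ x ≤ φ (γ • x)} := by
      ext x
      simp only [mem_setOf_eq, mem_union, mem_compl_iff]
      tauto
    rw [e]
    refine ((hact γ hKm).compl.union ?_).union ?_
    · exact (measurableSet_eq_fun (hh.comp (hact γ)) hh).compl
    · exact measurableSet_le hφ.measurable (hφ.measurable.comp (hact γ))
  have hX₀K : X₀ ⊆ K := inter_subset_left
  have hinj : Set.InjOn h X₀ := by
    intro x hx y hy hxy
    obtain ⟨γ, hγ⟩ := hfib x (hKE (hX₀K hx)) y (hKE (hX₀K hy)) hxy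
    have h1 : φ x ≤ φ y := by
      have := mem_iInter.1 hx.2 γ
      simp only [mem_setOf_eq, hγ] at this
      exact this (hX₀K hy) hxy.symm
    obtain ⟨γ', hγ'⟩ := hfib y (hKE (hX₀K hy)) x (hKE (hX₀K hx)) hxy.symm
    have h2 : φ y ≤ φ x := by
      have := mem_iInter.1 hy.2 γ'
      simp only [mem_setOf_eq, hγ'] at this
      exact this (hX₀K hx) hxy
    exact hφ.injective (le_antisymm h1 h2)
  have hcov : K ⊆ ⋃ γ : Γ, {x | γ • x ∈ X₀} := by
    intro x hx
    have hne : ({h x} ×ˢ univ ∩ K' : Set (ℝ × ℝ)).Nonempty := ⟨F x, by simp [hF], hx⟩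
    have hc : IsCompact ({h x} ×ˢ univ ∩ K' : Set (ℝ × ℝ)) :=
      hK'c.inter_left (isClosed_singleton.prod isClosed_univ)
    obtain ⟨p, hp, hmin⟩ := hc.exists_isMinOn hne continuous_snd.continuousOn
    obtain ⟨y, hy, hyp⟩ := hK'sub hp.2
    have hyK : y ∈ K := by
      change F y ∈ K'
      rw [hyp]
      exact hp.2
    have hhy : h y = h x := by
      have : p.1 = h x := by
        have := hp.1
        simp only [mem_prod, mem_singleton_iff, mem_univ, and_true] at this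
        exact this
      rw [← this, ← hyp]
    have hφy : φ y = p.2 := by rw [← hyp]
    obtain ⟨γ, hγ⟩ := hfib x (hKE hx) y hy hhy.symm
    refine mem_iUnion.2 ⟨γ, ?_⟩
    change γ • x ∈ X₀
    rw [hγ]
    refine ⟨hyK, mem_iInter.2 fun γ' hγ'K hγ'h => ?_⟩
    have : F (γ' • y) ∈ ({h x} ×ˢ univ ∩ K' : Set (ℝ × ℝ)) := by
      refine ⟨?_, hγ'K⟩
      simp only [hF, mem_prod, mem_singleton_iff, mem_univ, and_true]
      rw [hγ'h, hhy]
    have := hmin this
    simp only [mem_setOf_eq] at this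
    rw [hφy]
    exact this
  refine ⟨X₀, hX₀m, fun x hx => hKE (hX₀K hx), hinj, hX₀m.image_of_measurable_injOn hh hinj, ?_⟩
  intro h0
  apply hK0
  refine measure_mono_null hcov (measure_iUnion_null fun γ => ?_)
  have : μ ((fun x : X => γ • x) ⁻¹' X₀) = 0 := by
    rw [← Measure.map_apply (hact γ) hX₀m, hμ γ, h0]
  exact this

/-- an injective map between measurable sets which moves points inside orbits does not increase
measure -/
theorem orbit_map_le (Γ : Type) [Group Γ] [Countable Γ] (X : Type) [MeasurableSpace X]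
    [StandardBorelSpace X] [MulAction Γ X] (hact : ∀ γ : Γ, Measurable fun x : X => γ • x)
    (μ : Measure X) [IsProbabilityMeasure μ] (hμ : ∀ γ : Γ, μ.map (fun x : X => γ • x) = μ)
    (X₀ : Set X) (hX : MeasurableSet X₀) (h : X → ℝ) (hh : Measurable h) (hinj : Set.InjOn h X₀)
    (r : ℝ → ℝ) (hr : Measurable r) (hri : Function.Injective r) (D : Set ℝ) (hD : MeasurableSet D)
    (hrD : MeasurableSet (r '' D))
    (hmove : ∀ x ∈ X₀, h x ∈ D → ∃ y ∈ X₀, h y = r (h x) ∧ ∃ γ : Γ, γ • x = y) :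
    μ (X₀ ∩ h ⁻¹' D) ≤ μ (X₀ ∩ h ⁻¹' (r '' D)) := by
  obtain ⟨e, he⟩ := exists_surjective_nat Γ
  set A : ℕ → Set X := fun n =>
    (X₀ ∩ h ⁻¹' D) ∩ ({x | e n • x ∈ X₀} ∩ {x | h (e n • x) = r (h x)}) with hA
  have hAm : ∀ n, MeasurableSet (A n) := fun n =>
    (hX.inter (hh hD)).inter ((hact (e n) hX).inter
      (measurableSet_eq_fun (hh.comp (hact (e n))) (hr.comp hh)))
  have hcov : X₀ ∩ h ⁻¹' D ⊆ ⋃ n, A n := by
    rintro x ⟨hx, hxD⟩
    obtain ⟨y, hy, hyr, γ, hγ⟩ := hmove x hx hxD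
    obtain ⟨n, rfl⟩ := he γ
    refine mem_iUnion.2 ⟨n, ⟨hx, hxD⟩, ?_, ?_⟩
    · change e n • x ∈ X₀
      rwa [hγ]
    · change h (e n • x) = r (h x)
      rwa [hγ]
  set B : ℕ → Set X := disjointed A with hB
  have hBm : ∀ n, MeasurableSet (B n) := fun n => MeasurableSet.disjointed hAm n
  have hBA : ∀ n, B n ⊆ A n := fun n => disjointed_subset A n
  set C : ℕ → Set X := fun n => {y | (e n)⁻¹ • y ∈ B n} with hC
  have hCm : ∀ n, MeasurableSet (C n) := fun n => hact _ (hBm n)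
  have hCB : ∀ n, μ (C n) = μ (B n) := by
    intro n
    have h1 : μ ((fun x : X => (e n)⁻¹ • x) ⁻¹' B n) = μ (B n) := by
      rw [← Measure.map_apply (hact _) (hBm n), hμ]
    exact h1
  have hCsub : ∀ n, C n ⊆ X₀ ∩ h ⁻¹' (r '' D) := by
    intro n y hy
    have hx := hBA n hy
    have hx1 : e n • (e n)⁻¹ • y ∈ X₀ := hx.2.1
    have hx2 : h (e n • (e n)⁻¹ • y) = r (h ((e n)⁻¹ • y)) := hx.2.2
    rw [smul_inv_smul] at hx1 hx2
    refine ⟨hx1, ?_⟩
    rw [mem_preimage, hx2]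
    exact mem_image_of_mem _ hx.1.2
  have hCdis : Pairwise (Function.onFun Disjoint C) := by
    intro n m hnm
    rw [Function.onFun, Set.disjoint_left]
    intro y hyn hym
    have hxn := hBA n hyn
    have hxm := hBA m hym
    have h1 : h (e n • (e n)⁻¹ • y) = r (h ((e n)⁻¹ • y)) := hxn.2.2
    have h2 : h (e m • (e m)⁻¹ • y) = r (h ((e m)⁻¹ • y)) := hxm.2.2
    rw [smul_inv_smul] at h1 h2
    have h3 : (e n)⁻¹ • y = (e m)⁻¹ • y := hinj hxn.1.1 hxm.1.1 (hri (h1.symm.trans h2))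
    have h4 : (e n)⁻¹ • y ∈ B m := by
      rw [h3]
      exact hym
    exact Set.disjoint_left.1 (disjoint_disjointed A hnm) hyn h4
  calc μ (X₀ ∩ h ⁻¹' D) ≤ μ (⋃ n, A n) := measure_mono hcov
    _ = μ (⋃ n, B n) := by rw [hB, iUnion_disjointed]
    _ ≤ ∑' n, μ (B n) := measure_iUnion_le _
    _ = ∑' n, μ (C n) := by simp only [hCB]
    _ = μ (⋃ n, C n) := (measure_iUnion hCdis hCm).symm
    _ ≤ μ (X₀ ∩ h ⁻¹' (r '' D)) := measure_mono (iUnion_subset hCsub)

end Pool.Agent.Lib.MP_75b31c_lc.H74
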